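import Mathlib

open Finset PowerSeries

namespace Pool.Agent.Results.MP_cd30d4_co.Nonneg

/-- The Taylor coefficient of `x ^ n` in `exp (-x / (r + 1)) * B_r x`. -/
def c (r n : ℕ) : ℚ :=
  1 / n.factorial * ∑ k ∈ Icc r n, (n.choose k : ℚ) * (-1 / (r + 1)) ^ (n - k)

def s (b : ℚ) (r n : ℕ) : ℚ := ∑ k ∈ Icc r n, (n.choose k : ℚ) * b ^ (n - k)

lemma step (b : ℚ) (r m : ℕ) : s b (r + 1) (r + m + 1) =
    (1 + b) * s b (r + 1) (r + m) + (r + m).choose r * b ^ m := by
  have e : ∀ f : ℕ → ℚ, ∑ k ∈ Icc (r + 1) (r + m + 1), f k = ∑ k ∈ Icc r (r + m), f (k + 1) :=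
    fun f => by rw [← map_add_right_Icc, sum_map]; rfl
  have h1 : ∑ k ∈ Icc r (r + m), ((r + m).choose k : ℚ) * b ^ (r + m - k) =
      (r + m).choose r * b ^ m + s b (r + 1) (r + m) := by
    rw [← insert_Icc_add_one_left_eq_Icc (by omega), sum_insert (by simp), s]
    simp
  have h2 : ∑ k ∈ Icc r (r + m), ((r + m).choose (k + 1) : ℚ) * b ^ (r + m - k) =
      b * s b (r + 1) (r + m) := by
    have := e fun k => ((r + m).choose k : ℚ) * b ^ (r + m + 1 - k)
    simp only [Nat.add_sub_add_right] at this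
    rw [← this, sum_Icc_succ_top (by omega), Nat.choose_succ_self, Nat.cast_zero, zero_mul,
      add_zero, s, mul_sum]
    refine sum_congr rfl fun k hk => ?_
    rw [Nat.succ_sub (mem_Icc.1 hk).2, pow_succ]; ring
  rw [s, e]
  simp only [Nat.choose_succ_succ', Nat.cast_add, add_mul, sum_add_distrib, Nat.add_sub_add_right]
  rw [h1, h2]; ring

lemma pos (r : ℕ) : ∀ m, 0 ≤ s (-1 / (r + 2)) (r + 1) (r + m) ∧
    0 ≤ s (-1 / (r + 2)) (r + 1) (r + (m + 1))
  | 0 => by simp [s]
  | m + 1 => by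
    obtain ⟨h0, h1⟩ := pos r m
    refine ⟨h1, ?_⟩
    have a := step (-1 / (r + 2)) r m
    have a' := step (-1 / (r + 2)) r (m + 1)
    have e : ((r + (m + 1)).choose r : ℚ) * (m + 1) = (r + m).choose r * (r + m + 1) := by
      have := Nat.choose_mul_succ_eq (r + m) r
      rw [show r + m + 1 - r = m + 1 by omega] at this
      exact_mod_cast this.symm
    rw [add_assoc] at a a'
    generalize s (-1 / (r + 2)) (r + 1) (r + (m + 1 + 1)) = z at *
    generalize s (-1 / (r + 2)) (r + 1) (r + (m + 1)) = y at *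
    generalize s (-1 / (r + 2)) (r + 1) (r + m) = x at *
    have k : (m + 1) * z = r * m / (r + 2) * y + (r + 1) * (r + m + 1) / (r + 2) ^ 2 * x := by
      have : (m + 1) * z = (m + 1) * (1 + -1 / (r + 2)) * y +
          (r + m + 1) * (-1 / (r + 2)) * (y - (1 + -1 / (r + 2)) * x) := by
        rw [pow_succ] at a'
        linear_combination (m + 1) * a' + (-1 / (r + 2)) ^ m * (-1 / (r + 2)) * e -
          (r + m + 1) * (-1 / (r + 2)) * a
      rw [this]; field_simp; ring
    exact nonneg_of_mul_nonneg_right (k ▸ by positivity) (by positivity : (0 : ℚ) < m + 1)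

theorem result (r : ℕ) (hr : 1 ≤ r) (n : ℕ) : 0 ≤ c r n ∧
    c r n = coeff n (rescale (-1 / (r + 1) : ℚ) (exp ℚ) *
      PowerSeries.mk fun k => if r ≤ k then (1 / k.factorial : ℚ) else 0) := by
  constructor
  · obtain ⟨r, rfl⟩ : ∃ q, r = q + 1 := ⟨r - 1, by omega⟩
    refine mul_nonneg (by positivity) ?_
    rcases le_or_gt r n with h | h
    · obtain ⟨m, rfl⟩ := Nat.exists_eq_add_of_le h
      have := (pos r m).1
      rwa [show (r + 2 : ℚ) = (r + 1 : ℕ) + 1 by push_cast; ring] at this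
    · rw [Icc_eq_empty (by omega), sum_empty]
  · rw [mul_comm, coeff_mul, Nat.sum_antidiagonal_eq_sum_range_succ_mk, c, mul_sum]
    simp only [coeff_mk, coeff_rescale, coeff_exp, ite_mul, zero_mul, ← sum_filter]
    refine sum_congr (by ext k; simp; omega) fun k hk => ?_
    have : k ≤ n := by simp at hk; omega
    rw [Nat.cast_choose ℚ this]
    simp only [eq_ratCast, Rat.cast_div, Rat.cast_one, Rat.cast_natCast]
    field_simp

end Pool.Agent.Results.MP_cd30d4_co.Nonneg
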